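import Pool.Agent.Lib_helper90.LatS.A

/-!
# Block S, part B: transpose-stable closed connected groups; generation by symmetric elements
-/

namespace Pool.Agent.Lat

open Set Topology Matrix

variable {m : ℕ}

/-- The Lie algebra as a submodule. -/
noncomputable def lieSub (H : Subgroup (GL (Fin m) ℝ)) (hH : IsClosed (H : Set (GL (Fin m) ℝ))) :
    Submodule ℝ (Matrix (Fin m) (Fin m) ℝ) where
  carrier := lieSet H
  zero_mem' := fun t => by rw [smul_zero, expGL_zero]; exact H.one_mem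
  add_mem' := fun hX hY => lieSet_add H hH hX hY
  smul_mem' := fun c _ hX => lieSet_smul H hX c

theorem mem_lieSub {H : Subgroup (GL (Fin m) ℝ)} {hH : IsClosed (H : Set (GL (Fin m) ℝ))}
    {X : Matrix (Fin m) (Fin m) ℝ} : X ∈ lieSub H hH ↔ X ∈ lieSet H := Iff.rfl

theorem expGL_mem {H : Subgroup (GL (Fin m) ℝ)} {X : Matrix (Fin m) (Fin m) ℝ}
    (hX : X ∈ lieSet H) : expGL X ∈ H := by
  have := hX 1
  rwa [one_smul] at this

theorem lieSet_mono {H K : Subgroup (GL (Fin m) ℝ)} (h : H ≤ K) : lieSet H ⊆ lieSet K :=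
  fun _ hX t => h (hX t)

/-- The conditions on the linear group. -/
structure SS (R : Subgroup (GL (Fin m) ℝ)) : Prop where
  closed : IsClosed (R : Set (GL (Fin m) ℝ))
  conn : IsConnected (R : Set (GL (Fin m) ℝ))
  tr : ∀ r ∈ R, ∃ r' ∈ R, (r' : Matrix (Fin m) (Fin m) ℝ) = (r : Matrix (Fin m) (Fin m) ℝ)ᵀ
  centre : ∀ z ∈ R, (∀ g ∈ R, g * z = z * g) → z = 1
  cpt : ∀ N : Subgroup (GL (Fin m) ℝ), N ≤ R → (∀ g ∈ R, ∀ n ∈ N, g * n * g⁻¹ ∈ N) →
    IsCompact (N : Set (GL (Fin m) ℝ)) → ∀ n ∈ N, n = 1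

theorem SS.lie_tr {R : Subgroup (GL (Fin m) ℝ)} (hR : SS R) {X : Matrix (Fin m) (Fin m) ℝ}
    (hX : X ∈ lieSet R) : Xᵀ ∈ lieSet R := by
  intro t
  obtain ⟨r', hr', h⟩ := hR.tr _ (hX t)
  have : expGL (t • Xᵀ) = r' := by
    ext1
    rw [h, ← Matrix.transpose_smul, expGL_transpose]
  rw [this]; exact hr'

theorem SS.le_of_lie {R : Subgroup (GL (Fin m) ℝ)} (hR : SS R) {M : Subgroup (GL (Fin m) ℝ)}
    (h : lieSet R ⊆ lieSet M) : R ≤ M := by
  rw [← closure_exp_of_connected R hR.closed hR.conn, Subgroup.closure_le]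
  rintro _ ⟨X, hX, rfl⟩
  exact expGL_mem (h hX)

/-- An element of the Lie algebra commuting with the group vanishes. -/
theorem SS.central_zero {R : Subgroup (GL (Fin m) ℝ)} (hR : SS R)
    {X : Matrix (Fin m) (Fin m) ℝ} (hX : X ∈ lieSet R)
    (h : ∀ g ∈ R, (g : Matrix (Fin m) (Fin m) ℝ) * X = X * g) : X = 0 := by
  refine eq_zero_of_expGL_eq_one fun t => hR.centre _ (hX t) fun g hg => ?_
  have h1 : (g : Matrix (Fin m) (Fin m) ℝ) * (t • X) * ((g⁻¹ : GL (Fin m) ℝ) : Matrix (Fin m) (Fin m) ℝ)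
      = t • X := by
    rw [Matrix.mul_smul, h g hg, ← Matrix.smul_mul, Matrix.mul_assoc, Units.mul_inv, Matrix.mul_one]
  have h2 := expGL_conj g (t • X)
  rw [h1] at h2
  rw [eq_mul_inv_iff_mul_eq] at h2
  exact h2.symm

/-- the orthogonal group as a compact set of `GL` -/
theorem isCompact_orth : IsCompact {n : GL (Fin m) ℝ |
    (n : Matrix (Fin m) (Fin m) ℝ)ᵀ * (n : Matrix (Fin m) (Fin m) ℝ) = 1} := by
  have hc : IsCompact {A : Matrix (Fin m) (Fin m) ℝ | Aᵀ * A = 1} := by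
    have hsub : {A : Matrix (Fin m) (Fin m) ℝ | Aᵀ * A = 1} ⊆
        Set.pi univ (fun _ : Fin m => Set.pi univ (fun _ : Fin m => Icc (-1 : ℝ) 1)) := by
      intro A hA i _ j _
      have h1 := congrFun (congrFun hA j) j
      rw [Matrix.mul_apply, Matrix.one_apply_eq] at h1
      have h2 : A i j ^ 2 ≤ 1 := by
        rw [← h1]
        have : A i j ^ 2 = Aᵀ j i * A i j := by rw [Matrix.transpose_apply]; ring
        rw [this]
        exact Finset.single_le_sum (f := fun k => Aᵀ j k * A k j)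
          (fun k _ => by rw [Matrix.transpose_apply]; exact mul_self_nonneg _) (Finset.mem_univ i)
      rw [mem_Icc, ← abs_le]
      exact (sq_le_one_iff_abs_le_one _).1 h2
    refine IsCompact.of_isClosed_subset ?_ ?_ hsub
    · exact isCompact_univ_pi fun _ => isCompact_univ_pi fun _ => isCompact_Icc
    · have hcont : Continuous (fun A : Matrix (Fin m) (Fin m) ℝ => Aᵀ * A) :=
        (continuous_id.matrix_transpose).matrix_mul continuous_id
      exact isClosed_singleton.preimage hcont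
  have hcs : CompactSpace {A : Matrix (Fin m) (Fin m) ℝ | Aᵀ * A = 1} :=
    isCompact_iff_compactSpace.1 hc
  let f : {A : Matrix (Fin m) (Fin m) ℝ | Aᵀ * A = 1} → GL (Fin m) ℝ := fun A =>
    ⟨A.1, A.1ᵀ, mul_eq_one_comm.1 A.2, A.2⟩
  have hf : Continuous f := by
    rw [Units.continuous_iff]
    refine ⟨continuous_subtype_val, ?_⟩
    exact continuous_subtype_val.matrix_transpose
  have hr : range f = {n : GL (Fin m) ℝ |
      (n : Matrix (Fin m) (Fin m) ℝ)ᵀ * (n : Matrix (Fin m) (Fin m) ℝ) = 1} := by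
    ext n
    constructor
    · rintro ⟨A, rfl⟩
      exact A.2
    · intro hn
      refine ⟨⟨n.1, hn⟩, ?_⟩
      ext1; rfl
  rw [← hr]
  exact isCompact_range hf

/-- the subgroup of all `n ∈ R` orthogonal and commuting with all symmetric elements of the
Lie algebra -/
def kerSub (R : Subgroup (GL (Fin m) ℝ)) : Subgroup (GL (Fin m) ℝ) where
  carrier := {n | n ∈ R ∧ (n : Matrix (Fin m) (Fin m) ℝ)ᵀ * (n : Matrix (Fin m) (Fin m) ℝ) = 1 ∧
    ∀ P ∈ lieSet R, Pᵀ = P → (n : Matrix (Fin m) (Fin m) ℝ) * P = P * n}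
  one_mem' := ⟨R.one_mem, by simp, fun P _ _ => by simp⟩
  mul_mem' := by
    rintro a b ⟨ha, ha1, ha2⟩ ⟨hb, hb1, hb2⟩
    refine ⟨R.mul_mem ha hb, ?_, fun P hP hPs => ?_⟩
    · rw [Units.val_mul, Matrix.transpose_mul, Matrix.mul_assoc,
        ← Matrix.mul_assoc (a : Matrix (Fin m) (Fin m) ℝ)ᵀ, ha1, Matrix.one_mul, hb1]
    · rw [Units.val_mul, Matrix.mul_assoc, hb2 P hP hPs, ← Matrix.mul_assoc, ha2 P hP hPs,
        Matrix.mul_assoc]
  inv_mem' := by
    rintro a ⟨ha, ha1, ha2⟩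
    have hinv : ((a⁻¹ : GL (Fin m) ℝ) : Matrix (Fin m) (Fin m) ℝ) =
        (a : Matrix (Fin m) (Fin m) ℝ)ᵀ := by
      have := congrArg (fun M => M * ((a⁻¹ : GL (Fin m) ℝ) : Matrix (Fin m) (Fin m) ℝ)) ha1
      simp only [Matrix.mul_assoc, Units.mul_inv, Matrix.mul_one, Matrix.one_mul] at this
      exact this.symm
    refine ⟨R.inv_mem ha, ?_, fun P hP hPs => ?_⟩
    · rw [hinv, Matrix.transpose_transpose]
      exact mul_eq_one_comm.1 ha1
    · have h1 := congrArg (fun M => ((a⁻¹ : GL (Fin m) ℝ) : Matrix (Fin m) (Fin m) ℝ) * M *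
        ((a⁻¹ : GL (Fin m) ℝ) : Matrix (Fin m) (Fin m) ℝ)) (ha2 P hP hPs)
      beta_reduce at h1
      rw [← Matrix.mul_assoc, Units.inv_mul, Matrix.one_mul, Matrix.mul_assoc, Matrix.mul_assoc,
        Units.mul_inv, Matrix.mul_one] at h1
      exact h1.symm

theorem isClosed_commute (P : Matrix (Fin m) (Fin m) ℝ) :
    IsClosed {n : GL (Fin m) ℝ | (n : Matrix (Fin m) (Fin m) ℝ) * P = P * n} :=
  isClosed_eq (Units.continuous_val.matrix_mul continuous_const)
    (continuous_const.matrix_mul Units.continuous_val)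

theorem isClosed_orth : IsClosed {n : GL (Fin m) ℝ |
    (n : Matrix (Fin m) (Fin m) ℝ)ᵀ * (n : Matrix (Fin m) (Fin m) ℝ) = 1} :=
  isClosed_eq (Units.continuous_val.matrix_transpose.matrix_mul Units.continuous_val)
    continuous_const

theorem SS.isClosed_kerSub {R : Subgroup (GL (Fin m) ℝ)} (hR : SS R) :
    IsClosed (kerSub R : Set (GL (Fin m) ℝ)) := by
  have : (kerSub R : Set (GL (Fin m) ℝ)) = (R : Set (GL (Fin m) ℝ)) ∩ ({n : GL (Fin m) ℝ |
      (n : Matrix (Fin m) (Fin m) ℝ)ᵀ * (n : Matrix (Fin m) (Fin m) ℝ) = 1} ∩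
      ⋂ (P : Matrix (Fin m) (Fin m) ℝ) (_ : P ∈ lieSet R) (_ : Pᵀ = P),
        {n : GL (Fin m) ℝ | (n : Matrix (Fin m) (Fin m) ℝ) * P = P * n}) := by
    ext n
    simp only [mem_inter_iff, mem_iInter]
    exact Iff.rfl
  rw [this]
  exact hR.closed.inter (isClosed_orth.inter (isClosed_iInter fun P => isClosed_iInter fun _ =>
    isClosed_iInter fun _ => isClosed_commute P))

theorem SS.isCompact_kerSub {R : Subgroup (GL (Fin m) ℝ)} (hR : SS R) :
    IsCompact (kerSub R : Set (GL (Fin m) ℝ)) :=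
  isCompact_orth.of_isClosed_subset hR.isClosed_kerSub fun _ hn => hn.2.1

theorem expGL_commute {X Y : Matrix (Fin m) (Fin m) ℝ} (h : X * Y = Y * X) :
    (expGL X : Matrix (Fin m) (Fin m) ℝ) * Y = Y * expGL X := by
  have h1 : Commute X Y := h
  exact (h1.exp_left)

theorem inv_of_orth {o : GL (Fin m) ℝ}
    (h : (o : Matrix (Fin m) (Fin m) ℝ)ᵀ * (o : Matrix (Fin m) (Fin m) ℝ) = 1) :
    ((o⁻¹ : GL (Fin m) ℝ) : Matrix (Fin m) (Fin m) ℝ) = (o : Matrix (Fin m) (Fin m) ℝ)ᵀ := by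
  have := congrArg (fun M => M * ((o⁻¹ : GL (Fin m) ℝ) : Matrix (Fin m) (Fin m) ℝ)) h
  simp only [Matrix.mul_assoc, Units.mul_inv, Matrix.mul_one, Matrix.one_mul] at this
  exact this.symm

/-- conjugation of the kernel subgroup by orthogonal elements of `R` -/
theorem kerSub_conj_orth {R : Subgroup (GL (Fin m) ℝ)} {o : GL (Fin m) ℝ} (ho : o ∈ R)
    (h : (o : Matrix (Fin m) (Fin m) ℝ)ᵀ * (o : Matrix (Fin m) (Fin m) ℝ) = 1)
    {n : GL (Fin m) ℝ} (hn : n ∈ kerSub R) : o * n * o⁻¹ ∈ kerSub R := by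
  obtain ⟨hn0, hn1, hn2⟩ := hn
  have hinv := inv_of_orth h
  have ho2 : (o : Matrix (Fin m) (Fin m) ℝ) * (o : Matrix (Fin m) (Fin m) ℝ)ᵀ = 1 :=
    mul_eq_one_comm.1 h
  refine ⟨R.mul_mem (R.mul_mem ho hn0) (R.inv_mem ho), ?_, fun P hP hPs => ?_⟩
  · rw [Units.val_mul, Units.val_mul, hinv, Matrix.transpose_mul, Matrix.transpose_mul,
      Matrix.transpose_transpose]
    calc (o : Matrix (Fin m) (Fin m) ℝ) * ((n : Matrix (Fin m) (Fin m) ℝ)ᵀ *
          (o : Matrix (Fin m) (Fin m) ℝ)ᵀ) * ((o : Matrix (Fin m) (Fin m) ℝ) *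
          (n : Matrix (Fin m) (Fin m) ℝ) * (o : Matrix (Fin m) (Fin m) ℝ)ᵀ)
        = (o : Matrix (Fin m) (Fin m) ℝ) * ((n : Matrix (Fin m) (Fin m) ℝ)ᵀ *
          ((o : Matrix (Fin m) (Fin m) ℝ)ᵀ * (o : Matrix (Fin m) (Fin m) ℝ)) *
          (n : Matrix (Fin m) (Fin m) ℝ)) * (o : Matrix (Fin m) (Fin m) ℝ)ᵀ := by
          simp only [Matrix.mul_assoc]
      _ = 1 := by rw [h, Matrix.mul_one, hn1, Matrix.mul_one, ho2]
  · have hQ : ((o⁻¹ : GL (Fin m) ℝ) : Matrix (Fin m) (Fin m) ℝ) * P *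
        (((o⁻¹)⁻¹ : GL (Fin m) ℝ) : Matrix (Fin m) (Fin m) ℝ) ∈ lieSet R :=
      lieSet_conj R hP (R.inv_mem ho)
    rw [inv_inv, hinv] at hQ
    have h1 := hn2 _ hQ (by
      rw [Matrix.transpose_mul, Matrix.transpose_mul, Matrix.transpose_transpose, hPs,
        Matrix.mul_assoc])
    have h2 := congrArg (fun M => (o : Matrix (Fin m) (Fin m) ℝ) * M *
      (o : Matrix (Fin m) (Fin m) ℝ)ᵀ) h1
    beta_reduce at h2
    rw [Units.val_mul, Units.val_mul, hinv]
    have e1 : (o : Matrix (Fin m) (Fin m) ℝ) * ((n : Matrix (Fin m) (Fin m) ℝ) *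
        ((o : Matrix (Fin m) (Fin m) ℝ)ᵀ * P * (o : Matrix (Fin m) (Fin m) ℝ))) *
        (o : Matrix (Fin m) (Fin m) ℝ)ᵀ = (o : Matrix (Fin m) (Fin m) ℝ) *
        (n : Matrix (Fin m) (Fin m) ℝ) * (o : Matrix (Fin m) (Fin m) ℝ)ᵀ * P := by
      calc _ = (o : Matrix (Fin m) (Fin m) ℝ) * (n : Matrix (Fin m) (Fin m) ℝ) *
            (o : Matrix (Fin m) (Fin m) ℝ)ᵀ * P * ((o : Matrix (Fin m) (Fin m) ℝ) *
            (o : Matrix (Fin m) (Fin m) ℝ)ᵀ) := by simp only [Matrix.mul_assoc]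
        _ = _ := by rw [ho2, Matrix.mul_one]
    have e2 : (o : Matrix (Fin m) (Fin m) ℝ) * ((o : Matrix (Fin m) (Fin m) ℝ)ᵀ * P *
        (o : Matrix (Fin m) (Fin m) ℝ) * (n : Matrix (Fin m) (Fin m) ℝ)) *
        (o : Matrix (Fin m) (Fin m) ℝ)ᵀ = P * ((o : Matrix (Fin m) (Fin m) ℝ) *
        (n : Matrix (Fin m) (Fin m) ℝ) * (o : Matrix (Fin m) (Fin m) ℝ)ᵀ) := by
      calc _ = ((o : Matrix (Fin m) (Fin m) ℝ) * (o : Matrix (Fin m) (Fin m) ℝ)ᵀ) * P *
            ((o : Matrix (Fin m) (Fin m) ℝ) * (n : Matrix (Fin m) (Fin m) ℝ) *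
            (o : Matrix (Fin m) (Fin m) ℝ)ᵀ) := by simp only [Matrix.mul_assoc]
        _ = _ := by rw [ho2, Matrix.one_mul]
    rw [e1, e2] at h2
    exact h2

/-- conjugation of the kernel subgroup by exponentials of symmetric elements -/
theorem kerSub_conj_symm {R : Subgroup (GL (Fin m) ℝ)} {P : Matrix (Fin m) (Fin m) ℝ}
    (hP : P ∈ lieSet R) (hPs : Pᵀ = P) {n : GL (Fin m) ℝ} (hn : n ∈ kerSub R) :
    expGL P * n * (expGL P)⁻¹ = n := by
  have h1 := hn.2.2 P hP hPs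
  have h2 := expGL_commute (X := P) (Y := (n : Matrix (Fin m) (Fin m) ℝ)) h1.symm
  have h3 : expGL P * n = n * expGL P := by
    ext1
    rw [Units.val_mul, Units.val_mul]; exact h2
  rw [h3, mul_inv_cancel_right]

/-- the normaliser of the kernel subgroup -/
def normSub (N : Subgroup (GL (Fin m) ℝ)) : Subgroup (GL (Fin m) ℝ) where
  carrier := {g | (∀ n ∈ N, g * n * g⁻¹ ∈ N) ∧ ∀ n ∈ N, g⁻¹ * n * g ∈ N}
  one_mem' := ⟨fun n hn => by simpa using hn, fun n hn => by simpa using hn⟩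
  mul_mem' := by
    rintro a b ⟨ha1, ha2⟩ ⟨hb1, hb2⟩
    refine ⟨fun n hn => ?_, fun n hn => ?_⟩
    · have := ha1 _ (hb1 n hn)
      simpa [mul_assoc] using this
    · have := hb2 _ (ha2 n hn)
      simpa [mul_assoc] using this
  inv_mem' := by
    rintro a ⟨ha1, ha2⟩
    exact ⟨fun n hn => by simpa using ha2 n hn, fun n hn => by simpa using ha1 n hn⟩

theorem SS.kerSub_trivial {R : Subgroup (GL (Fin m) ℝ)} (hR : SS R) :
    ∀ n ∈ kerSub R, n = 1 := by
  refine hR.cpt _ (fun n hn => hn.1) ?_ hR.isCompact_kerSub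
  have hle : R ≤ normSub (kerSub R) := by
    refine hR.le_of_lie ?_
    have hcl : IsClosed (normSub (kerSub R) : Set (GL (Fin m) ℝ)) := by
      have : (normSub (kerSub R) : Set (GL (Fin m) ℝ)) =
          (⋂ (n : GL (Fin m) ℝ) (_ : n ∈ kerSub R), {g : GL (Fin m) ℝ | g * n * g⁻¹ ∈ kerSub R}) ∩
          ⋂ (n : GL (Fin m) ℝ) (_ : n ∈ kerSub R), {g : GL (Fin m) ℝ | g⁻¹ * n * g ∈ kerSub R} := by
        ext g
        simp only [mem_inter_iff, mem_iInter]
        exact Iff.rfl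
      rw [this]
      refine IsClosed.inter (isClosed_iInter fun n => isClosed_iInter fun _ => ?_)
        (isClosed_iInter fun n => isClosed_iInter fun _ => ?_)
      · exact hR.isClosed_kerSub.preimage (by fun_prop)
      · exact hR.isClosed_kerSub.preimage (by fun_prop)
    have hsym : ∀ P ∈ lieSet R, Pᵀ = P → P ∈ lieSet (normSub (kerSub R)) := by
      intro P hP hPs t
      have hP' : t • P ∈ lieSet R := lieSet_smul R hP t
      have hP'' : -(t • P) ∈ lieSet R := by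
        have := lieSet_smul R hP (-t)
        rwa [neg_smul] at this
      refine ⟨fun n hn => ?_, fun n hn => ?_⟩
      · rw [kerSub_conj_symm hP' (by rw [Matrix.transpose_smul, hPs]) hn]
        exact hn
      · have := kerSub_conj_symm hP'' (by rw [Matrix.transpose_neg, Matrix.transpose_smul, hPs]) hn
        rw [expGL_neg, inv_inv] at this
        rw [this]; exact hn
    have horth : ∀ K : Matrix (Fin m) (Fin m) ℝ, Kᵀ = -K →
        (expGL K : Matrix (Fin m) (Fin m) ℝ)ᵀ * (expGL K : Matrix (Fin m) (Fin m) ℝ) = 1 := by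
      intro K hK
      rw [← expGL_transpose, hK, expGL_neg, Units.inv_mul]
    have hanti : ∀ K ∈ lieSet R, Kᵀ = -K → K ∈ lieSet (normSub (kerSub R)) := by
      intro K hK hKs t
      have hK' : t • K ∈ lieSet R := lieSet_smul R hK t
      have hK'' : -(t • K) ∈ lieSet R := by
        have := lieSet_smul R hK (-t)
        rwa [neg_smul] at this
      have hs : (t • K)ᵀ = -(t • K) := by rw [Matrix.transpose_smul, hKs, smul_neg]
      refine ⟨fun n hn => ?_, fun n hn => ?_⟩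
      · exact kerSub_conj_orth (expGL_mem hK') (horth _ hs) hn
      · have := kerSub_conj_orth (expGL_mem hK'') (horth _ (by
          rw [Matrix.transpose_neg, hs])) hn
        rw [expGL_neg, inv_inv] at this
        exact this
    intro X hX
    have hXt := hR.lie_tr hX
    have h1 : (1 / 2 : ℝ) • (X + Xᵀ) ∈ lieSet (normSub (kerSub R)) := by
      refine hsym _ (lieSet_smul R (lieSet_add R hR.closed hX hXt) _) ?_
      rw [Matrix.transpose_smul, Matrix.transpose_add, Matrix.transpose_transpose, add_comm]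
    have h2 : (1 / 2 : ℝ) • (X - Xᵀ) ∈ lieSet (normSub (kerSub R)) := by
      refine hanti _ ?_ ?_
      · have hneg : -Xᵀ ∈ lieSet R := by
          have := lieSet_smul R hXt (-1)
          rwa [neg_smul, one_smul] at this
        rw [sub_eq_add_neg]
        exact lieSet_smul R (lieSet_add R hR.closed hX hneg) _
      · rw [Matrix.transpose_smul, Matrix.transpose_sub, Matrix.transpose_transpose, ← smul_neg,
          neg_sub]
    have h3 := lieSet_add _ hcl h1 h2
    have h4 : (1 / 2 : ℝ) • (X + Xᵀ) + (1 / 2 : ℝ) • (X - Xᵀ) = X := by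
      rw [← smul_add, add_add_sub_cancel, ← two_smul ℝ X, smul_smul]; norm_num
    rwa [h4] at h3
  exact fun g hg n hn => (hle hg).1 n hn

/-- An antisymmetric element of the Lie algebra which commutes with the symmetric ones
vanishes. -/
theorem SS.antisymm_zero {R : Subgroup (GL (Fin m) ℝ)} (hR : SS R)
    {Z : Matrix (Fin m) (Fin m) ℝ} (hZ : Z ∈ lieSet R) (hZs : Zᵀ = -Z)
    (hZP : ∀ P ∈ lieSet R, Pᵀ = P → Z * P = P * Z) : Z = 0 := by
  refine eq_zero_of_expGL_eq_one fun t => hR.kerSub_trivial _ ⟨hZ t, ?_, fun P hP hPs => ?_⟩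
  · have hs : (t • Z)ᵀ = -(t • Z) := by rw [Matrix.transpose_smul, hZs, smul_neg]
    rw [← expGL_transpose, hs, expGL_neg, Units.inv_mul]
  · exact expGL_commute (by rw [Matrix.smul_mul, Matrix.mul_smul, hZP P hP hPs])

/-- A closed subgroup containing the exponentials of the symmetric elements of the Lie algebra
contains `R`. -/
theorem SS.symm_generate {R : Subgroup (GL (Fin m) ℝ)} (hR : SS R)
    {M : Subgroup (GL (Fin m) ℝ)} (hM : IsClosed (M : Set (GL (Fin m) ℝ)))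
    (h : ∀ P ∈ lieSet R, Pᵀ = P → P ∈ lieSet M) : R ≤ M := by
  refine hR.le_of_lie ?_
  intro X hX
  have hcl : IsClosed ((M ⊓ R : Subgroup (GL (Fin m) ℝ)) : Set (GL (Fin m) ℝ)) := by
    rw [Subgroup.coe_inf]; exact hM.inter hR.closed
  set q := lieSub (M ⊓ R) hcl with hq
  have hqM : ∀ Y ∈ q, Y ∈ lieSet M := fun Y hY t => (hY t).1
  have hqR : ∀ Y ∈ q, Y ∈ lieSet R := fun Y hY t => (hY t).2
  have hPq : ∀ P ∈ lieSet R, Pᵀ = P → P ∈ q := fun P hP hPs t => ⟨h P hP hPs t, hP t⟩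
  obtain ⟨w, hw, hwv⟩ := hs_decomp q X
  have hV : X - w ∈ lieSub R hR.closed := Submodule.sub_mem _ hX (hqR w hw)
  set V := X - w with hVdef
  have hVt : Vᵀ ∈ lieSub R hR.closed := hR.lie_tr hV
  have hVs : V + Vᵀ ∈ lieSub R hR.closed := Submodule.add_mem _ hV hVt
  have h0 := hwv (V + Vᵀ) (hPq _ hVs (by
    rw [Matrix.transpose_add, Matrix.transpose_transpose, add_comm]))
  have hanti : Vᵀ = -V := by
    have h1 : hs (V + Vᵀ) (V + Vᵀ) = 2 * hs V (V + Vᵀ) := by
      have h2 : hs Vᵀ (V + Vᵀ) = hs V (V + Vᵀ) := by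
        rw [hs_add_right, hs_add_right]
        have e1 : hs Vᵀ V = hs V Vᵀ := hs_comm _ _
        have e2 : hs Vᵀ Vᵀ = hs V V := by
          unfold hs
          rw [Matrix.transpose_transpose, Matrix.trace_mul_comm]
        rw [e1, e2, add_comm]
      rw [hs_add_left, h2]; ring
    have h3 : V + Vᵀ = 0 := hs_self_eq_zero (by rw [h1, h0]; norm_num)
    exact (neg_eq_of_add_eq_zero_right h3).symm
  have hV0 : V = 0 := by
    refine hR.antisymm_zero hV hanti fun P hP hPs => ?_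
    have hQ : V * P - P * V ∈ lieSet R := lieSet_bracket R hR.closed hV hP
    have hQs : (V * P - P * V)ᵀ = V * P - P * V := by
      rw [Matrix.transpose_sub, Matrix.transpose_mul, Matrix.transpose_mul, hPs, hanti]
      rw [mul_neg, neg_mul, sub_neg_eq_add, neg_add_eq_sub]
    have hb : P * (V * P - P * V) - (V * P - P * V) * P ∈ q :=
      lieSet_bracket _ hcl (hPq P hP hPs) (hPq _ hQ hQs)
    have h1 := hwv _ hb
    have h2 : ∀ Q : Matrix (Fin m) (Fin m) ℝ,
        hs (V * P - P * V) Q = -hs V (P * Q - Q * P) := by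
      intro Q
      rw [hs_sub_left, hs_mul_right, hs_mul_left, hPs, hs_sub_right]; ring
    have h3 : V * P - P * V = 0 := hs_self_eq_zero (by rw [h2, h1]; norm_num)
    exact sub_eq_zero.1 h3
  have : X = w := sub_eq_zero.1 hV0
  rw [this]
  exact hqM w hw

end Pool.Agent.Lat
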