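import Pool.Agent.Lib_helper90.LatS.C
import Pool.Agent.Lib_helper90.LatS.E

/-!
# Block S, part F: the Lie algebra of a closed subgroup with the recurrence property is an ideal
-/

namespace Pool.Agent.Lat

open Set Topology Matrix

variable {m : ℕ}

/-- the stabiliser of a subspace under conjugation -/
def stabSub (W : Submodule ℝ (Matrix (Fin m) (Fin m) ℝ)) : Subgroup (GL (Fin m) ℝ) where
  carrier := {r | (∀ X ∈ W, (r : Matrix (Fin m) (Fin m) ℝ) * X *
      ((r⁻¹ : GL (Fin m) ℝ) : Matrix (Fin m) (Fin m) ℝ) ∈ W) ∧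
    ∀ X ∈ W, ((r⁻¹ : GL (Fin m) ℝ) : Matrix (Fin m) (Fin m) ℝ) * X *
      (r : Matrix (Fin m) (Fin m) ℝ) ∈ W}
  one_mem' := ⟨fun X hX => by simpa using hX, fun X hX => by simpa using hX⟩
  mul_mem' := by
    rintro a b ⟨ha1, ha2⟩ ⟨hb1, hb2⟩
    refine ⟨fun X hX => ?_, fun X hX => ?_⟩
    · have := ha1 _ (hb1 X hX)
      rw [_root_.mul_inv_rev, Units.val_mul, Units.val_mul]
      simpa only [Matrix.mul_assoc] using this
    · have := hb2 _ (ha2 X hX)
      rw [_root_.mul_inv_rev, Units.val_mul, Units.val_mul]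
      simpa only [Matrix.mul_assoc] using this
  inv_mem' := by
    rintro a ⟨ha1, ha2⟩
    exact ⟨fun X hX => by rw [inv_inv]; exact ha2 X hX,
      fun X hX => by rw [inv_inv]; exact ha1 X hX⟩

theorem isClosed_stabSub (W : Submodule ℝ (Matrix (Fin m) (Fin m) ℝ)) :
    IsClosed (stabSub W : Set (GL (Fin m) ℝ)) := by
  have hW : IsClosed (W : Set (Matrix (Fin m) (Fin m) ℝ)) := W.closed_of_finiteDimensional
  have : (stabSub W : Set (GL (Fin m) ℝ)) =
      (⋂ (X : Matrix (Fin m) (Fin m) ℝ) (_ : X ∈ W), {r : GL (Fin m) ℝ |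
        (r : Matrix (Fin m) (Fin m) ℝ) * X *
          ((r⁻¹ : GL (Fin m) ℝ) : Matrix (Fin m) (Fin m) ℝ) ∈ W}) ∩
      ⋂ (X : Matrix (Fin m) (Fin m) ℝ) (_ : X ∈ W), {r : GL (Fin m) ℝ |
        ((r⁻¹ : GL (Fin m) ℝ) : Matrix (Fin m) (Fin m) ℝ) * X *
          (r : Matrix (Fin m) (Fin m) ℝ) ∈ W} := by
    ext r
    simp only [mem_inter_iff, mem_iInter]
    exact Iff.rfl
  rw [this]
  have c1 : Continuous fun r : GL (Fin m) ℝ => (r : Matrix (Fin m) (Fin m) ℝ) :=
    Units.continuous_val
  have c2 : Continuous fun r : GL (Fin m) ℝ =>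
      ((r⁻¹ : GL (Fin m) ℝ) : Matrix (Fin m) (Fin m) ℝ) :=
    Units.continuous_val.comp continuous_inv
  refine IsClosed.inter (isClosed_iInter fun X => isClosed_iInter fun _ => ?_)
    (isClosed_iInter fun X => isClosed_iInter fun _ => ?_)
  · exact hW.preimage ((c1.matrix_mul continuous_const).matrix_mul c2)
  · exact hW.preimage ((c2.matrix_mul continuous_const).matrix_mul c1)

section SS
variable {G : Type*} [Group G] [TopologicalSpace G]

theorem isClosed_map {ρ : G →* GL (Fin m) ℝ} (hρ : IsClosedEmbedding ρ) (H : Subgroup G)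
    (hH : IsClosed (H : Set G)) : IsClosed ((H.map ρ : Subgroup (GL (Fin m) ℝ)) : Set (GL (Fin m) ℝ)) := by
  rw [Subgroup.coe_map]
  exact hρ.isClosedMap _ hH

theorem lie_normal {ρ : G →* GL (Fin m) ℝ} (hρ : IsClosedEmbedding ρ) (hR : SS ρ.range)
    (H : Subgroup G) (hH : IsClosed (H : Set G)) (hrec : Rec (H : Set G)) :
    ρ.range ≤ stabSub (lieSub (H.map ρ) (isClosed_map hρ H hH)) := by
  set W := lieSub (H.map ρ) (isClosed_map hρ H hH) with hW
  set b := Module.finBasis ℝ W with hb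
  set e : Fin (Module.finrank ℝ W) → Matrix (Fin m) (Fin m) ℝ := fun i => (b i : _) with he
  have heW : ∀ i, e i ∈ W := fun i => (b i).2
  have hlin : ∀ v : Fin (Module.finrank ℝ W) → ℝ, ∑ i, v i • e i = 0 → v = 0 := by
    intro v hv
    have h1 : ∑ i, v i • b i = 0 := by
      apply Subtype.ext
      rw [Submodule.coe_sum]
      simpa using hv
    have h2 := Fintype.linearIndependent_iff.1 b.linearIndependent v h1
    funext i; exact h2 i
  have hspan : ∀ X ∈ W, ∃ c : Fin (Module.finrank ℝ W) → ℝ, X = ∑ i, c i • e i := by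
    intro X hX
    refine ⟨fun i => b.repr ⟨X, hX⟩ i, ?_⟩
    have := congrArg (Subtype.val) (b.sum_repr ⟨X, hX⟩)
    rw [Submodule.coe_sum] at this
    simpa using this.symm
  let a : G → Fin (Module.finrank ℝ W) → Matrix (Fin m) (Fin m) ℝ := fun g i =>
    (((ρ g)⁻¹ : GL (Fin m) ℝ) : Matrix (Fin m) (Fin m) ℝ) * e i * (ρ g : Matrix (Fin m) (Fin m) ℝ)
  have ha : ∀ g i, a g i = (((ρ g)⁻¹ : GL (Fin m) ℝ) : Matrix (Fin m) (Fin m) ℝ) * e i *
    (ρ g : Matrix (Fin m) (Fin m) ℝ) := fun _ _ => rfl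
  have hsum : ∀ g (c : Fin (Module.finrank ℝ W) → ℝ), ∑ i, c i • a g i =
      (((ρ g)⁻¹ : GL (Fin m) ℝ) : Matrix (Fin m) (Fin m) ℝ) * (∑ i, c i • e i) *
        (ρ g : Matrix (Fin m) (Fin m) ℝ) := by
    intro g c
    rw [Matrix.mul_sum, Matrix.sum_mul]
    refine Finset.sum_congr rfl fun i _ => ?_
    rw [ha, Matrix.mul_smul, Matrix.smul_mul]
  have hinj : ∀ g, ∀ v, vecM (a g) *ᵥ v = 0 → v = 0 := by
    intro g v hv
    have h1 := vecM_mulVec _ _ hv
    rw [hsum] at h1
    apply hlin
    have h2 := congrArg (fun M => (ρ g : Matrix (Fin m) (Fin m) ℝ) * M *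
      (((ρ g)⁻¹ : GL (Fin m) ℝ) : Matrix (Fin m) (Fin m) ℝ)) h1
    beta_reduce at h2
    rw [Matrix.mul_zero, Matrix.zero_mul, Matrix.mul_assoc, Matrix.mul_assoc, Matrix.mul_assoc,
      Units.mul_inv, Matrix.mul_one, ← Matrix.mul_assoc, Units.mul_inv, Matrix.one_mul] at h2
    exact h2
  have hcont : Continuous fun g => vecM (a g) := by
    have c1 : Continuous fun g => (ρ g : Matrix (Fin m) (Fin m) ℝ) :=
      Units.continuous_val.comp hρ.continuous
    have c2 : Continuous fun g => (((ρ g)⁻¹ : GL (Fin m) ℝ) : Matrix (Fin m) (Fin m) ℝ) :=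
      Units.continuous_val.comp (continuous_inv.comp hρ.continuous)
    refine continuous_matrix fun p i => ?_
    have c3 : Continuous fun g => a g i := (c2.matrix_mul continuous_const).matrix_mul c1
    exact c3.matrix_elem p.1 p.2
  -- key claim: for symmetric elements
  have hkey : ∀ h : G, (ρ h : Matrix (Fin m) (Fin m) ℝ)ᵀ = ρ h → ∀ X ∈ W,
      ((ρ h * ρ h : GL (Fin m) ℝ) : Matrix (Fin m) (Fin m) ℝ) * X *
        (((ρ h * ρ h)⁻¹ : GL (Fin m) ℝ) : Matrix (Fin m) (Fin m) ℝ) ∈ W := by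
    intro h hs'
    set x : Matrix (Fin m) (Fin m) ℝ := (ρ h : Matrix (Fin m) (Fin m) ℝ) with hx
    set x' : Matrix (Fin m) (Fin m) ℝ := (((ρ h)⁻¹ : GL (Fin m) ℝ) : Matrix (Fin m) (Fin m) ℝ)
      with hx'
    have hxx' : x * x' = 1 := Units.mul_inv _
    have hx'x : x' * x = 1 := Units.inv_mul _
    have hx's : x'ᵀ = x' := by
      have h1 : x'ᵀ * x = 1 := by
        have := congrArg Matrix.transpose hxx'
        rwa [Matrix.transpose_mul, hs', Matrix.transpose_one] at this
      have := congrArg (fun M => M * x') h1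
      beta_reduce at this
      rwa [Matrix.mul_assoc, hxx', Matrix.mul_one, Matrix.one_mul] at this
    set T := Matrix.kronecker x' xᵀ with hT
    set S := Matrix.kronecker x x'ᵀ with hS
    have hTS : T * S = 1 := kron_mul_inv hx'x (by
      rw [← Matrix.transpose_mul, hx'x, Matrix.transpose_one])
    have hTt : Tᵀ = T := by
      rw [hT, Matrix.kronecker, ← Matrix.kroneckerMap_transpose, Matrix.transpose_transpose, hx's,
        hs']
    have hstep : ∀ g, vecM (a (g * h)) = T * vecM (a g) := by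
      intro g
      rw [hT, ← vecM_mul]
      congr 1
      funext i
      rw [ha, ha, map_mul, _root_.mul_inv_rev, Units.val_mul, Units.val_mul]
      simp only [Matrix.mul_assoc, ← hx, ← hx']
    have hleft : ∀ h' ∈ (H : Set G), ∀ g, thetaM S (vecM (a (h' * g))) = thetaM S (vecM (a g)) := by
      intro h' hh' g
      have h1 : ∀ i, ∃ c : Fin (Module.finrank ℝ W) → ℝ,
          (((ρ h')⁻¹ : GL (Fin m) ℝ) : Matrix (Fin m) (Fin m) ℝ) * e i *
            (ρ h' : Matrix (Fin m) (Fin m) ℝ) = ∑ j, c j • e j := by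
        intro i
        apply hspan
        have := lieSet_conj (H.map ρ) (heW i) (g := (ρ h')⁻¹)
          ((H.map ρ).inv_mem ⟨h', hh', rfl⟩)
        rwa [inv_inv] at this
      choose c hc using h1
      have h2 : vecM (a (h' * g)) = vecM (a g) * Matrix.of fun j i => c i j := by
        apply eq_vecM_mul
        intro i
        simp only [Matrix.of_apply]
        rw [hsum, ← hc i, ha, map_mul, _root_.mul_inv_rev, Units.val_mul, Units.val_mul]
        simp only [Matrix.mul_assoc]
      rw [h2]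
      apply thetaM_mul_right
      rw [isUnit_iff_ne_zero]
      intro h3
      obtain ⟨v, hv, hv0⟩ := Matrix.exists_mulVec_eq_zero_iff.2 h3
      apply hv
      apply hinj (h' * g)
      rw [h2, ← Matrix.mulVec_mulVec, hv0, Matrix.mulVec_zero]
    have hr := hrec (fun g => thetaM S (vecM (a g))) (continuous_thetaM S hcont hinj) hleft h
      (fun g => by
        change thetaM S (vecM (a (g * h))) ≤ _
        rw [hstep]; exact thetaM_le hTS hTt (hinj g)) 1
    beta_reduce at hr
    rw [hstep] at hr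
    obtain ⟨C, hC⟩ := thetaM_eq hTS hTt (hinj 1) hr
    have h4 : ∀ i, x * a 1 i * x' = ∑ j, C j i • (x' * a 1 j * x) := by
      have q1 : vecM (fun i => x * a 1 i * x') = S * vecM (a 1) := vecM_mul x x' (a 1)
      have q2 : vecM (fun i => x' * a 1 i * x) = T * vecM (a 1) := vecM_mul x' x (a 1)
      exact vecM_eq_mul _ _ C (by rw [q1, q2]; exact hC)
    have h5 : ∀ i, x * x * e i * (x' * x') ∈ W := by
      intro i
      have e1 : a 1 = e := by
        funext j
        rw [ha]; simp
      have h6 := h4 i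
      rw [e1] at h6
      have h7 : x * x * e i * (x' * x') = ∑ j, C j i • e j := by
        calc x * x * e i * (x' * x') = x * (x * e i * x') * x' := by simp only [Matrix.mul_assoc]
          _ = ∑ j, C j i • e j := by
            rw [h6, Matrix.mul_sum, Matrix.sum_mul]
            refine Finset.sum_congr rfl fun j _ => ?_
            rw [Matrix.mul_smul, Matrix.smul_mul]
            congr 1
            calc x * (x' * e j * x) * x' = (x * x') * e j * (x * x') := by
                  simp only [Matrix.mul_assoc]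
              _ = e j := by rw [hxx', Matrix.one_mul, Matrix.mul_one]
      rw [h7]
      exact Submodule.sum_mem _ fun j _ => W.smul_mem _ (heW j)
    intro X hX
    obtain ⟨c, rfl⟩ := hspan X hX
    rw [Matrix.mul_sum, Matrix.sum_mul]
    refine Submodule.sum_mem _ fun i _ => ?_
    rw [Matrix.mul_smul, Matrix.smul_mul]
    refine W.smul_mem _ ?_
    rw [_root_.mul_inv_rev, Units.val_mul, Units.val_mul]
    exact h5 i
  refine hR.symm_generate (isClosed_stabSub W) fun P hP hPs t => ?_
  have hgen : ∀ s : ℝ, ∀ X ∈ W, (expGL (s • P) : Matrix (Fin m) (Fin m) ℝ) * X *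
      (((expGL (s • P))⁻¹ : GL (Fin m) ℝ) : Matrix (Fin m) (Fin m) ℝ) ∈ W := by
    intro s X hX
    obtain ⟨h, hh⟩ := hP (s / 2)
    have h1 := hkey h (by
      rw [hh, ← expGL_transpose, Matrix.transpose_smul, hPs]) X hX
    have h2 : expGL (s • P) = ρ h * ρ h := by
      rw [hh, ← expGL_smul_add, add_halves]
    rw [h2]; exact h1
  refine ⟨hgen t, fun X hX => ?_⟩
  have := hgen (-t) X hX
  rw [neg_smul, expGL_neg, inv_inv] at this
  exact this

end SS

end Pool.Agent.Lat
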